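import Pool.Agent.Helper85.KP.StE

/-!
# Module ECV of project KP (MP_26be5b_ag): almost everywhere convergence of Bergman functions
-/

set_option autoImplicit false

namespace Pool.Agent.Helper87.KP

open MeasureTheory Filter Pool.Agent.Helper52.KP Pool.Agent.Helper85.KP
open scoped ContDiff ComplexOrder Topology

private lemma isOpen_U (C : Cone) : IsOpen C.U := by
  have h : Continuous fun z : Fin C.m → ℂ => ev C.Δ z := MvPolynomial.continuous_eval _
  exact isOpen_ne.preimage h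

private lemma u_pos (C : Cone) (hC : Good C) (z : Fin C.m → ℂ) (hz : z ∈ C.U) : 0 < C.u z := by
  obtain ⟨a, b, ha, hab⟩ := hC.ubd
  exact lt_of_lt_of_le (mul_pos ha (hC.Xpos z hz)) (hab z hz).1

private lemma isOpen_S1 (C : Cone) (hC : Good C) : IsOpen {z | z ∈ C.U ∧ C.u z < 1} := by
  have h := hC.usm.continuousOn.isOpen_inter_preimage (isOpen_U C) (isOpen_Iio (a := (1 : ℝ)))
  exact h

private lemma berg_cont (C : Cone) (hC : Good C) (D : ℕ) {N : ℕ}
    (s : Fin N → MvPolynomial (Fin C.m) ℂ) : ContinuousOn (C.berg D s) C.U := by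
  unfold Cone.berg
  apply ContinuousOn.mul continuousOn_const
  apply ContinuousOn.div
  · apply Continuous.continuousOn
    apply continuous_finsetSum
    intro j _
    have h : Continuous fun z : Fin C.m → ℂ => ev (s j) z := MvPolynomial.continuous_eval _
    exact (h.norm).pow 2
  · exact hC.usm.continuousOn.pow _
  · intro z hz
    exact pow_ne_zero _ (u_pos C hC z hz).ne'

private lemma berg_scl (C : Cone) (hC : Good C) (D : ℕ) {N : ℕ}
    (s : Fin N → MvPolynomial (Fin C.m) ℂ) (hs : ONB C D s) (z : Fin C.m → ℂ) (hz : z ∈ C.U)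
    (c : ℂ) (hc : c ≠ 0) : C.berg D s (scl C.w c z) = C.berg D s z := by
  unfold Cone.berg
  rw [hC.uhom z hz c hc]
  have hj : ∀ j, ‖ev (s j) (scl C.w c z)‖ ^ 2 = ‖c‖ ^ (2 * D) * ‖ev (s j) z‖ ^ 2 := by
    intro j
    have hmem : s j ∈ C.R D := by
      rw [← hs.span]
      exact Submodule.subset_span (Set.mem_range_self j)
    rw [hC.hom D (s j) hmem c z, norm_mul, norm_pow, mul_pow, ← pow_mul, mul_comm D 2]
  rw [Finset.sum_congr rfl (fun j _ => hj j), ← Finset.mul_sum, mul_pow]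
  have hc' : ‖c‖ ^ (2 * D) ≠ 0 := pow_ne_zero _ (norm_ne_zero_iff.2 hc)
  rw [mul_div_mul_left _ _ hc']

theorem hECV : StBER → StEHM → StECV := by
  intro hBER hEHM C hC D N s hD hO
  have hU := isOpen_U C
  have hS1 := isOpen_S1 C hC
  -- choice of a subsequence
  have hev : ∀ n : ℕ, ∀ᶠ i in atTop,
      ∫⁻ z in {z | z ∈ C.U ∧ C.u z < 1}, ENNReal.ofReal |C.berg (D i) (s i) z - 1| ∂C.nu ≤
        ENNReal.ofReal ((1 / 2 : ℝ) ^ n) := by
    intro n
    have h := hD.eventually (hBER C hC ((1 / 2 : ℝ) ^ n) (by positivity))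
    filter_upwards [h] with i hi
    exact hi (N i) (s i) (hO i)
  obtain ⟨σ, hσ, hσi⟩ := Filter.extraction_forall_of_eventually hev
  refine ⟨σ, hσ, ?_⟩
  -- almost everywhere convergence on the unit sublevel set
  have hmeas : ∀ i, AEMeasurable
      (fun z => ENNReal.ofReal |C.berg (D (σ i)) (s (σ i)) z - 1|)
      (C.nu.restrict {z | z ∈ C.U ∧ C.u z < 1}) := by
    intro i
    have hc : ContinuousOn (fun z => |C.berg (D (σ i)) (s (σ i)) z - 1|)
        {z | z ∈ C.U ∧ C.u z < 1} :=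
      (((berg_cont C hC _ _).sub continuousOn_const).abs).mono (fun z hz => hz.1)
    exact (hc.aemeasurable hS1.measurableSet).ennreal_ofReal
  have hfin : ∫⁻ z in {z | z ∈ C.U ∧ C.u z < 1},
      ∑' i, ENNReal.ofReal |C.berg (D (σ i)) (s (σ i)) z - 1| ∂C.nu ≠ ⊤ := by
    rw [lintegral_tsum hmeas]
    apply ne_top_of_le_ne_top _ (ENNReal.tsum_le_tsum hσi)
    have hsum : Summable (fun n : ℕ => (1 / 2 : ℝ) ^ n) := summable_geometric_two
    rw [← ENNReal.ofReal_tsum_of_nonneg (fun n => by positivity) hsum]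
    exact ENNReal.ofReal_ne_top
  have hae : ∀ᵐ z ∂(C.nu.restrict {z | z ∈ C.U ∧ C.u z < 1}),
      Tendsto (fun i => C.berg (D (σ i)) (s (σ i)) z) atTop (𝓝 1) := by
    have h1 := ae_lt_top' (AEMeasurable.ennreal_tsum hmeas) hfin
    filter_upwards [h1] with z hz
    have h2 := ENNReal.tendsto_atTop_zero_of_tsum_ne_top hz.ne
    have h3 : Tendsto (fun i => |C.berg (D (σ i)) (s (σ i)) z - 1|) atTop (𝓝 0) := by
      have h4 := (ENNReal.tendsto_toReal ENNReal.zero_ne_top).comp h2
      rw [ENNReal.toReal_zero] at h4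
      refine h4.congr ?_
      intro i
      simp only [Function.comp_apply]
      rw [ENNReal.toReal_ofReal (abs_nonneg _)]
    have h5 : Tendsto (fun i => C.berg (D (σ i)) (s (σ i)) z - 1) atTop (𝓝 0) :=
      (tendsto_zero_iff_abs_tendsto_zero _).2 h3
    have h6 := h5.add_const 1
    simpa using h6
  -- the exceptional set
  obtain ⟨E, hE⟩ : ∃ E : Set (Fin C.m → ℂ), E = {z | z ∈ C.U ∧
    ¬ Tendsto (fun i => C.berg (D (σ i)) (s (σ i)) z) atTop (𝓝 1)} := ⟨_, rfl⟩
  have hEU : E ⊆ C.U := by rw [hE]; exact fun z hz => hz.1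
  have hEc : ∀ z ∈ E, ∀ c : ℂ, c ≠ 0 → scl C.w c z ∈ E := by
    intro z hz c hc
    rw [hE] at hz ⊢
    refine ⟨hC.sclU c hc z hz.1, ?_⟩
    intro hcon
    apply hz.2
    refine hcon.congr ?_
    intro i
    exact berg_scl C hC _ _ (hO (σ i)) z hz.1 c hc
  have hE1 : volume (E ∩ S1 C) = 0 := by
    have hnu : C.nu (E ∩ S1 C) = 0 := by
      rw [ae_restrict_iff' hS1.measurableSet] at hae
      refine measure_mono_null ?_ hae
      intro z hz
      rw [hE] at hz
      intro hcon
      exact hz.1.2 (hcon hz.2)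
    unfold Cone.nu at hnu
    have hmJ : Measurable fun z : Fin C.m → ℂ => ENNReal.ofReal (‖ev C.J z‖ ^ 2) := by
      have h : Continuous fun z : Fin C.m → ℂ => ev C.J z := MvPolynomial.continuous_eval _
      exact ((h.norm).pow 2).measurable.ennreal_ofReal
    rw [withDensity_apply_eq_zero hmJ] at hnu
    refine measure_mono_null ?_ hnu
    intro z hz
    refine ⟨?_, hz⟩
    have hJ := hC.J0 z (hEU hz.1)
    have hpos : 0 < ‖ev C.J z‖ ^ 2 := by
      have := norm_pos_iff.2 hJ
      positivity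
    exact (ENNReal.ofReal_pos.2 hpos).ne'
  have hE0 := hEHM C hC E hEU hEc hE1
  rw [ae_restrict_iff' hU.measurableSet]
  refine measure_mono_null ?_ hE0
  intro z hz
  rw [hE]
  by_contra hcon
  apply hz
  intro hzU
  by_contra hcon2
  exact hcon ⟨hzU, hcon2⟩

end Pool.Agent.Helper87.KP
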