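import Pool.Agent.Helper20.KP.StH

/-!
# Module HLN of project KP (MP_26be5b_ag): coefficients are polynomials along almost all lines
-/

set_option autoImplicit false

namespace Pool.Agent.Helper87.KP

open MeasureTheory Filter Pool.Agent.Helper52.KP Pool.Agent.Helper20.KP
open scoped Topology

private lemma norm_sg {m : ℕ} (j : Fin m) (a : ℂ) :
    ‖a • (Pi.single j (1 : ℂ) : Fin m → ℂ)‖ ≤ ‖a‖ := by
  rw [pi_norm_le_iff_of_nonneg (norm_nonneg a)]
  intro i
  rw [Pi.smul_apply, smul_eq_mul, norm_mul]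
  by_cases h : i = j
  · rw [h, Pi.single_eq_same, norm_one, mul_one]
  · rw [Pi.single_eq_of_ne h, norm_zero, mul_zero]
    exact norm_nonneg a

private lemma line_finite {m : ℕ} (P : MvPolynomial (Fin m) ℂ) (y v : Fin m → ℂ)
    (hy : ev P y ≠ 0) : {t : ℂ | ev P (y + t • v) = 0}.Finite := by
  obtain ⟨p, hp⟩ : ∃ p : Polynomial ℂ, p =
    MvPolynomial.aeval (fun i => Polynomial.C (y i) + Polynomial.C (v i) * Polynomial.X) P :=
    ⟨_, rfl⟩
  have hev : ∀ t : ℂ, p.eval t = ev P (y + t • v) := by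
    intro t
    rw [hp]
    have h1 := MvPolynomial.map_aeval
      (fun i => Polynomial.C (y i) + Polynomial.C (v i) * Polynomial.X)
      (Polynomial.evalRingHom t) P
    rw [Polynomial.coe_evalRingHom] at h1
    rw [h1]
    have h2 : ((Polynomial.evalRingHom t).comp (algebraMap ℂ (Polynomial ℂ))) = RingHom.id ℂ := by
      ext a
      simp
    rw [h2, MvPolynomial.coe_eval₂Hom]
    unfold ev
    rw [← MvPolynomial.eval₂_id]
    congr 1
    funext i
    simp only [Polynomial.coe_evalRingHom, Polynomial.eval_add, Polynomial.eval_C,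
      Polynomial.eval_mul, Polynomial.eval_X, Pi.add_apply, Pi.smul_apply, smul_eq_mul]
    ring
  have hp0 : p ≠ 0 := by
    intro h
    apply hy
    have := hev 0
    rw [h, Polynomial.eval_zero, zero_smul, add_zero] at this
    exact this.symm
  refine (p.roots.toFinset.finite_toSet).subset ?_
  intro t ht
  rw [Finset.mem_coe, Multiset.mem_toFinset, Polynomial.mem_roots hp0, Polynomial.IsRoot, hev]
  exact ht

theorem hHLN (hHCO : StHCO) (hHBL : StHBL) (hHEN : StHEN) (hNUL : StNUL) :
    Pool.Agent.Helper20.KP.StHLN := by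
  intro D hD Y Dc rd hFB k F hF hFk i hi j
  obtain ⟨hco1, hco2, _⟩ := hHCO D hD Y Dc rd hFB F hF
  have hpj := hFB.pj
  have hae1 : ∀ᵐ y : Fin D.m → ℂ, ev Dc y ≠ 0 := by
    have h := hNUL D.m Dc hFB.D0
    rw [ae_iff]
    simpa using h
  filter_upwards [hae1, hpj.lin j] with y hy hlin
  obtain ⟨e, he⟩ : ∃ e : Fin D.m → ℂ, e = Pi.single j (1 : ℂ) := ⟨_, rfl⟩
  have hnorm : ∀ a : ℂ, ‖a • e‖ ≤ ‖a‖ := by
    intro a
    rw [he]
    exact norm_sg j a
  obtain ⟨Z, hZ⟩ : ∃ Z : Set ℂ, Z = {t : ℂ | ev Dc (y + t • e) = 0} := ⟨_, rfl⟩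
  have hZf : Z.Finite := by
    rw [hZ]
    exact line_finite Dc y e hy
  have hZm : ∀ t, t ∉ Z → ev Dc (y + t • e) ≠ 0 := by
    intro t ht hcon
    apply ht
    rw [hZ]
    exact hcon
  -- bound of the coefficient by the bound of the function on the fibre
  have hbound : ∀ t, t ∉ Z → ∀ B : ℝ, (∀ x ∈ D.O, Y x = y + t • e → ‖F x‖ ≤ B) →
      ‖D.co Y F i (y + t • e)‖ ≤ 2 ^ rd * B ^ (rd - i) := by
    intro t ht B hB
    obtain ⟨_, _, _, _, _, h⟩ := hco2 (y + t • e) (hZm t ht)
    exact h B (fun x hx => hB x hx.1 hx.2) i hi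
  have hdiff : DifferentiableOn ℂ (fun t : ℂ => D.co Y F i (y + t • e)) Zᶜ := by
    have hL : DifferentiableOn ℂ (fun t : ℂ => y + t • e) Zᶜ := by
      apply Differentiable.differentiableOn
      exact (differentiable_const y).add (differentiable_id.smul_const e)
    exact (hco1 i).comp hL (fun t ht => hZm t ht)
  obtain ⟨P, hP1, hP2⟩ := hHEN Z (fun t => D.co Y F i (y + t • e)) (k * (rd - i)) hZf hdiff
    (by
      intro t₀ _
      obtain ⟨δ, hδ, B, hB⟩ := hHBL D hD Y hpj F hF (y + t₀ • e)
        (by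
          intro x hx hx'
          rw [he]
          exact hlin t₀ x hx hx')
      refine ⟨δ, hδ, 2 ^ rd * B ^ (rd - i), ?_⟩
      intro s hs hsZ
      apply hbound s hsZ B
      intro x hx hYx
      apply hB x hx
      have h1 : Y x - (y + t₀ • e) = (s - t₀) • e := by
        rw [hYx, sub_smul]
        abel
      rw [h1]
      exact lt_of_le_of_lt (hnorm _) hs)
    (by
      obtain ⟨δ, hδ, B, hB⟩ := hHBL D hD Y hpj F hF e
        (by
          intro x hx hx'
          rw [he]
          exact hpj.dir j x hx hx')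
      refine ⟨max 1 (‖y‖ / δ + 1), 2 ^ rd * (max B 0) ^ (rd - i), ?_⟩
      intro t ht htZ
      have ht1 : 1 ≤ ‖t‖ := le_trans (le_max_left _ _) ht
      have ht2 : ‖y‖ / δ + 1 ≤ ‖t‖ := le_trans (le_max_right _ _) ht
      have ht0 : t ≠ 0 := by
        intro h
        rw [h, norm_zero] at ht1
        linarith
      have htp : 0 < ‖t‖ := norm_pos_iff.2 ht0
      have hb := hbound t htZ (‖t‖ ^ k * max B 0) (by
        intro x hx hYx
        have hx' : t⁻¹ • x ∈ D.O := hD.cone x hx _ (inv_ne_zero ht0)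
        have hY' : Y (t⁻¹ • x) - e = t⁻¹ • y := by
          rw [map_smul, hYx, smul_add, smul_smul, inv_mul_cancel₀ ht0, one_smul]
          abel
        have hlt : ‖Y (t⁻¹ • x) - e‖ < δ := by
          rw [hY', norm_smul, norm_inv, inv_mul_lt_iff₀ htp]
          have h3 : ‖y‖ / δ < ‖t‖ := by linarith
          rw [div_lt_iff₀ hδ] at h3
          exact h3
        have h4 := hB _ hx' hlt
        rw [hFk x hx _ (inv_ne_zero ht0), norm_mul, norm_pow, norm_inv] at h4
        have h5 : ‖F x‖ = ‖t‖ ^ k * ((‖t‖⁻¹) ^ k * ‖F x‖) := by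
          rw [← mul_assoc, ← mul_pow, mul_inv_cancel₀ htp.ne', one_pow, one_mul]
        rw [h5]
        apply mul_le_mul_of_nonneg_left _ (by positivity)
        exact le_trans h4 (le_max_left _ _))
      refine le_trans hb (le_of_eq ?_)
      rw [mul_pow, ← pow_mul]
      ring)
  refine ⟨P.comp (Polynomial.X - Polynomial.C (y j)), ?_, ?_⟩
  · refine le_trans Polynomial.natDegree_comp_le ?_
    have h1 : (Polynomial.X - Polynomial.C (y j)).natDegree = 1 := Polynomial.natDegree_X_sub_C _
    rw [h1, mul_one]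
    exact hP1
  · have hfin : {t : ℂ | t - y j ∈ Z}.Finite := by
      apply Set.Finite.preimage _ hZf
      intro a _ b _ hab
      exact sub_left_injective hab
    have hnull : ∀ᵐ t : ℂ, t ∉ {t : ℂ | t - y j ∈ Z} := by
      rw [ae_iff]
      simp only [not_not]
      exact hfin.measure_zero volume
    filter_upwards [hnull] with t ht
    have hup : Function.update y j t = y + (t - y j) • e := by
      funext l
      rw [he]
      by_cases h : l = j
      · rw [h]
        simp
      · rw [Function.update_of_ne h]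
        simp [Pi.single_eq_of_ne h]
    rw [hup, Polynomial.eval_comp]
    have h6 := hP2 (t - y j) ht
    simp only [Polynomial.eval_sub, Polynomial.eval_X, Polynomial.eval_C]
    exact h6

end Pool.Agent.Helper87.KP
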